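import Pool.Agent.helper68.QZ.Spec

/-!
# Project qz (MP_5a4a8e_nt): row FN
-/

set_option autoImplicit false

namespace Pool.Agent.QZ

open N1f72dd46 Filter MeasureTheory Complex Metric Pool.Agent.helper6.LD
open scoped ComplexConjugate

/-- the contour argument: a small `ζ'/ζ - P` on a circle excludes zeros -/
theorem FN_circ (hARG : Pool.Agent.EQ.ARG_stmt) (f P : ℂ → ℂ) (c ρ : ℂ) (r : ℝ) (hr : 0 < r)
    (hr1 : r < 1) (hf : AnalyticOnNhd ℂ f (closedBall c r)) (hs : ∀ z ∈ sphere c r, f z ≠ 0)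
    (hP : ∀ z ∈ closedBall c r, DifferentiableAt ℂ P z)
    (hh1 : ∀ z ∈ sphere c r, ‖deriv f z - P z * f z‖ ≤ ‖f z‖) (hρ : ρ ∈ ball c r)
    (h0 : f ρ = 0) : False := by
  obtain ⟨m, hm, hI⟩ := hARG f c r hr hf hs ⟨ρ, hρ, h0⟩
  have hPc : ContinuousOn P (closedBall c r) := fun z hz => (hP z hz).continuousAt.continuousWithinAt
  have hP0 : (∮ z in C(c, r), P z) = 0 :=
    circleIntegral_eq_zero_of_differentiable_on_off_countable hr.le Set.countable_empty hPc
      (fun z hz => hP z (ball_subset_closedBall hz.1))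
  have hq : ContinuousOn (fun z => deriv f z / f z) (sphere c r) := by
    intro z hz
    have h1 : AnalyticAt ℂ f z := hf z (sphere_subset_closedBall hz)
    exact (h1.deriv.continuousAt.div h1.continuousAt (hs z hz)).continuousWithinAt
  have hqi : CircleIntegrable (fun z => deriv f z / f z) c r := hq.circleIntegrable hr.le
  have hPi : CircleIntegrable P c r := (hPc.mono sphere_subset_closedBall).circleIntegrable hr.le
  have h1 : (∮ z in C(c, r), (deriv f z / f z - P z)) = 2 * (Real.pi : ℂ) * I * m := by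
    rw [circleIntegral.integral_sub hqi hPi, hI, hP0, sub_zero]
  have h2 : ‖∮ z in C(c, r), (deriv f z / f z - P z)‖ ≤ 2 * Real.pi * r * 1 := by
    apply circleIntegral.norm_integral_le_of_norm_le_const hr.le
    intro z hz
    have h3 : deriv f z / f z - P z = (deriv f z - P z * f z) / f z := by
      rw [sub_div, mul_div_cancel_right₀ _ (hs z hz)]
    rw [h3, norm_div]
    exact div_le_one_of_le₀ (hh1 z hz) (norm_nonneg _)
  rw [h1] at h2
  have h3 : ‖2 * (Real.pi : ℂ) * I * m‖ = 2 * Real.pi * m := by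
    rw [norm_mul, norm_mul, norm_mul, Complex.norm_I, Complex.norm_real, Complex.norm_natCast,
      Real.norm_of_nonneg Real.pi_pos.le]
    norm_num
  rw [h3] at h2
  have h4 : (1 : ℝ) ≤ m := by exact_mod_cast hm
  have h5 := Real.pi_pos
  nlinarith

theorem FN (hHS : HS_stmt) (hLG : LG_stmt) (hLL : LL_stmt) (hMM : MM_stmt) (hPC : PC_stmt)
    (hARG : Pool.Agent.EQ.ARG_stmt) : FN_stmt := by
  intro θ α β η hθ hθ1 hα hβ hη hZ hW
  obtain ⟨C, hC, hM⟩ := hMM
  set Δ : ℝ := β - α - 1 / 2 with hΔ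
  have hΔ0 : 0 < Δ := by linarith
  have hba : 0 < β - α := by linarith
  obtain ⟨v, hv0, hv1, hv2, hv3, hv4⟩ : ∃ v : ℝ, 0 < v ∧ v ≤ 1 / 10 ∧ v ≤ θ - 1 / 2 ∧
      v ≤ (1 - θ) / 2 ∧ v ≤ η / 2 / (β - α) := by
    refine ⟨min (min (1 / 10) (θ - 1 / 2)) (min ((1 - θ) / 2) (η / 2 / (β - α))), ?_, ?_, ?_, ?_,
      ?_⟩
    · refine lt_min (lt_min (by norm_num) (by linarith)) (lt_min (by linarith) (by positivity))
    · exact (min_le_left _ _).trans (min_le_left _ _)
    · exact (min_le_left _ _).trans (min_le_right _ _)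
    · exact (min_le_right _ _).trans (min_le_left _ _)
    · exact (min_le_right _ _).trans (min_le_right _ _)
  have hv4' : (β - α) * v ≤ η / 2 := by
    rw [le_div_iff₀ hba] at hv4
    linarith
  obtain ⟨R, hR0, hR1, hR2, hR3⟩ : ∃ R : ℝ, 0 < R ∧ 4 * R ≤ v ∧ R ≤ 1 / 10 ∧
      (5 / 2 + α + β + 7 * C) * R ≤ Δ * v / 4 := by
    have hK : 0 < 5 / 2 + α + β + 7 * C := by linarith
    refine ⟨min (v / 4) (Δ * v / 4 / (5 / 2 + α + β + 7 * C)), ?_, ?_, ?_, ?_⟩
    · exact lt_min (by positivity) (by positivity)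
    · have := min_le_left (v / 4) (Δ * v / 4 / (5 / 2 + α + β + 7 * C))
      linarith
    · have := min_le_left (v / 4) (Δ * v / 4 / (5 / 2 + α + β + 7 * C))
      linarith
    · have := min_le_right (v / 4) (Δ * v / 4 / (5 / 2 + α + β + 7 * C))
      rw [le_div_iff₀ hK] at this
      linarith
  obtain ⟨lam, T1, hlam, hhs⟩ := hHS θ α β η v R hθ hθ1 hZ hα (by linarith) hη hW hv0 hv1 hv2
    (by linarith) hv4' hR0
  obtain ⟨T2, hT2, hll⟩ := hLL θ R R hθ.le hZ hR0 hR0
  obtain ⟨T3, hT3, hlg⟩ := hLG θ R hθ hθ1 hZ hR0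
  obtain ⟨B, hB, hpc⟩ := hPC α lam hα hlam
  obtain ⟨T4, hT4⟩ := hZ R hR0
  refine ⟨R, hR0, fun ε hε => ⟨max (max T1 T2) (max (T3 + 1) (max T4 4)), fun ρ hρ hTρ => ?_⟩⟩
  by_contra hcon
  push Not at hcon
  set T : ℝ := ρ.im with hT
  have t1 : T1 ≤ T := (le_max_left _ _).trans ((le_max_left _ _).trans hTρ)
  have t2 : T2 ≤ T := (le_max_right _ _).trans ((le_max_left _ _).trans hTρ)
  have t3 : T3 + 1 ≤ T := (le_max_left _ _).trans ((le_max_right _ _).trans hTρ)
  have t4 : T4 ≤ T := (le_max_left _ _).trans ((le_max_right _ _).trans ((le_max_right _ _).trans hTρ))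
  have t5 : 4 ≤ T :=
    (le_max_right _ _).trans ((le_max_right _ _).trans ((le_max_right _ _).trans hTρ))
  have hT0 : 0 < T := by linarith
  have hρ1 : ρ.re ≤ θ + R := hT4 ρ hρ t4
  set c : ℂ := ((θ + R : ℝ) : ℂ) + T * I with hc
  have hcre : c.re = θ + R := by simp [hc]
  have hcim : c.im = T := by simp [hc]
  have hLT : 0 < Real.log T := Real.log_pos (by linarith)
  -- bounds for points near `c`
  have hball : ∀ z : ℂ, ‖z - c‖ ≤ 5 * R → θ - 4 * R ≤ z.re ∧ z.re ≤ θ + 6 * R ∧
      T - 1 / 2 ≤ z.im ∧ z.im ≤ T + 1 / 2 := by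
    intro z hz
    have h1 := (Complex.abs_re_le_norm (z - c)).trans hz
    have h2 := (Complex.abs_im_le_norm (z - c)).trans hz
    rw [Complex.sub_re, hcre, abs_le] at h1
    rw [Complex.sub_im, hcim, abs_le] at h2
    refine ⟨by linarith, by linarith, by linarith, by linarith⟩
  have hζc : T ^ (-R) ≤ ‖riemannZeta c‖ := (hll (θ + R) T le_rfl t2).1
  have hc0 : riemannZeta c ≠ 0 := by
    intro h
    rw [h, norm_zero] at hζc
    exact absurd hζc (not_le.2 (Real.rpow_pos_of_pos hT0 _))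
  have hup : ∀ z : ℂ, ‖z - c‖ ≤ 5 * R → ‖riemannZeta z‖ ≤ T ^ (6 * R) := by
    intro z hz
    obtain ⟨h1, h2, h3, h4⟩ := hball z hz
    have h5 := hlg z.re z.im (by linarith) (by linarith)
    rw [Complex.re_add_im] at h5
    have h6 : max (θ - z.re) 0 / 2 + R ≤ 3 * R := by
      have : max (θ - z.re) 0 ≤ 4 * R := max_le (by linarith) (by linarith)
      linarith
    have h7 : (1 : ℝ) ≤ z.im := by linarith
    have h8 : z.im ≤ T ^ (2 : ℝ) := by
      rw [Real.rpow_two]
      nlinarith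
    calc ‖riemannZeta z‖ ≤ z.im ^ (max (θ - z.re) 0 / 2 + R) := h5
      _ ≤ z.im ^ (3 * R) := Real.rpow_le_rpow_of_exponent_le h7 h6
      _ ≤ (T ^ (2 : ℝ)) ^ (3 * R) := Real.rpow_le_rpow (by linarith) h8 (by linarith)
      _ = T ^ (6 * R) := by
        rw [← Real.rpow_mul hT0.le]
        congr 1
        ring
  have han : AnalyticOnNhd ℂ riemannZeta (closedBall c (5 * R)) := by
    intro z hz
    rw [mem_closedBall, dist_eq_norm] at hz
    obtain ⟨h1, h2, h3, h4⟩ := hball z hz
    have hz1 : z ≠ 1 := by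
      rintro rfl
      rw [Complex.one_im] at h3
      linarith
    have hd : DifferentiableOn ℂ riemannZeta {(1 : ℂ)}ᶜ := fun w hw =>
      (differentiableAt_riemannZeta hw).differentiableWithinAt
    exact hd.analyticAt (isOpen_compl_singleton.mem_nhds hz1)
  have hexp : ∀ x : ℝ, Real.exp (x * Real.log T) = T ^ x := by
    intro x
    rw [Real.rpow_def_of_pos hT0, mul_comm]
  obtain ⟨r, hr2, hr3, hlow⟩ := hM riemannZeta c R (7 * R * Real.log T) hR0 (by positivity) han hc0
    (by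
      intro z hz
      rw [mem_closedBall, dist_eq_norm] at hz
      rw [hexp]
      calc ‖riemannZeta z‖ ≤ T ^ (6 * R) := hup z hz
        _ = T ^ (7 * R) * T ^ (-R) := by
          rw [← Real.rpow_add hT0]
          congr 1
          ring
        _ ≤ T ^ (7 * R) * ‖riemannZeta c‖ :=
          mul_le_mul_of_nonneg_left hζc (Real.rpow_nonneg hT0.le _))
  have hr0 : 0 < r := by linarith
  have hlow2 : ∀ z ∈ sphere c r, T ^ (-(7 * C * R) - R) ≤ ‖riemannZeta z‖ := by
    intro z hz
    rw [mem_sphere, dist_eq_norm] at hz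
    have h1 := hlow z hz
    have h2 : Real.exp (-(C * (7 * R * Real.log T))) = T ^ (-(7 * C * R)) := by
      rw [← hexp]
      congr 1
      ring
    rw [h2] at h1
    calc T ^ (-(7 * C * R) - R) = T ^ (-(7 * C * R)) * T ^ (-R) := by
          rw [← Real.rpow_add hT0]
          congr 1
      _ ≤ T ^ (-(7 * C * R)) * ‖riemannZeta c‖ :=
          mul_le_mul_of_nonneg_left hζc (Real.rpow_nonneg hT0.le _)
      _ ≤ ‖riemannZeta z‖ := h1
  have hne : ∀ z ∈ sphere c r, riemannZeta z ≠ 0 := by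
    intro z hz h
    have h1 := hlow2 z hz
    rw [h, norm_zero] at h1
    exact absurd h1 (not_le.2 (Real.rpow_pos_of_pos hT0 _))
  refine FN_circ hARG riemannZeta (Pt lam α T) c ρ r hr0 (by linarith)
    (han.mono (closedBall_subset_closedBall (by linarith))) hne ?_ ?_ ?_ hρ
  · intro z hz
    rw [mem_closedBall, dist_eq_norm] at hz
    obtain ⟨h1, h2, h3, h4⟩ := hball z (by linarith)
    exact (hpc T z (by linarith) (by linarith)).1
  · intro z hz
    have hz' := hz
    rw [mem_sphere, dist_eq_norm] at hz'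
    have h1 := (Complex.abs_re_le_norm (z - c)).trans_eq hz'
    have h2 := (Complex.abs_im_le_norm (z - c)).trans_eq hz'
    rw [Complex.sub_re, hcre, abs_le] at h1
    rw [Complex.sub_im, hcim] at h2
    have h3 := hhs T (z.re - θ) z.im t1 (by rw [abs_le]; constructor <;> linarith) (by linarith)
    rw [show θ + (z.re - θ) = z.re by ring, Complex.re_add_im] at h3
    have h4 : hh lam α T z = deriv riemannZeta z - Pt lam α T z * riemannZeta z := rfl
    rw [h4] at h3
    refine h3.trans (le_trans ?_ (hlow2 z hz))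
    apply Real.rpow_le_rpow_of_exponent_le (by linarith)
    have h5 : (1 / 2 + α + β) * (θ - z.re) ≤ (1 / 2 + α + β) * (2 * R) :=
      mul_le_mul_of_nonneg_left (by linarith) (by linarith)
    have h6 : 0 ≤ Δ * v := by positivity
    have h7 : ((1 / 2 + α) * (v - (z.re - θ)) - β * (v + (z.re - θ))) / 2 + R =
        -(Δ * v) / 2 + (1 / 2 + α + β) * (θ - z.re) / 2 + R := by
      rw [hΔ]
      ring
    rw [h7]
    nlinarith
  · rw [mem_ball, dist_eq_norm]
    have h1 : ρ - c = ((ρ.re - (θ + R) : ℝ) : ℂ) := by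
      apply Complex.ext
      · rw [Complex.sub_re, hcre, Complex.ofReal_re]
      · rw [Complex.sub_im, hcim, Complex.ofReal_im, hT, sub_self]
    rw [h1, Complex.norm_real, Real.norm_eq_abs, abs_lt]
    constructor <;> linarith

end Pool.Agent.QZ
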