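import Pool.Agent.helper68.QZ.Spec
import Pool.Agent.helper85.LD.G1

/-!
# Project qz (MP_5a4a8e_nt): row HS
-/

set_option autoImplicit false

namespace Pool.Agent.QZ

open N1f72dd46 Filter MeasureTheory Complex Metric Pool.Agent.helper6.LD
open scoped ComplexConjugate

/-- linear growth of the zeta function in a strip to the left of `1` -/
theorem HS_growth (κ : ℝ) (hκ : 0 < κ) : ∃ C : ℝ, 0 < C ∧ ∀ z : ℂ, 1 / 4 ≤ z.re →
    z.re ≤ 1 - κ → ‖riemannZeta z‖ ≤ C * (1 + |z.im|) := by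
  obtain ⟨C1, hC1, hg⟩ := zeta_growth
  have hK : IsCompact (Set.Icc (1 / 4 : ℝ) (1 - κ) ×ℂ Set.Icc (-1 : ℝ) 1) :=
    isCompact_Icc.reProdIm isCompact_Icc
  have hcont : ContinuousOn riemannZeta (Set.Icc (1 / 4 : ℝ) (1 - κ) ×ℂ Set.Icc (-1 : ℝ) 1) := by
    intro z hz
    have hz1 : z ≠ 1 := by
      rintro rfl
      have := (mem_reProdIm.1 hz).1.2
      rw [Complex.one_re] at this
      linarith
    exact (differentiableAt_riemannZeta hz1).continuousAt.continuousWithinAt
  obtain ⟨M, hM⟩ := hK.exists_bound_of_continuousOn hcont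
  refine ⟨max M C1, lt_max_of_lt_right hC1, fun z h1 h2 => ?_⟩
  rcases le_or_gt |z.im| 1 with h3 | h3
  · have h4 := hM z (mem_reProdIm.2 ⟨⟨h1, h2⟩, abs_le.1 h3⟩)
    have h5 : (0 : ℝ) ≤ max M C1 := (le_max_of_le_right hC1.le)
    calc ‖riemannZeta z‖ ≤ M := h4
      _ ≤ max M C1 * 1 := by rw [mul_one]; exact le_max_left _ _
      _ ≤ max M C1 * (1 + |z.im|) := by
        apply mul_le_mul_of_nonneg_left _ h5
        linarith [abs_nonneg z.im]
  · have h4 := hg z (by linarith) h3.le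
    have h5 : ‖z‖ ≤ 1 + |z.im| := by
      have h6 := Complex.norm_le_abs_re_add_abs_im z
      have h7 : |z.re| ≤ 1 := by
        rw [abs_le]
        constructor <;> linarith
      linarith
    calc ‖riemannZeta z‖ ≤ C1 * ‖z‖ := h4
      _ ≤ max M C1 * (1 + |z.im|) := by
        apply mul_le_mul (le_max_right _ _) h5 (norm_nonneg _) (le_max_of_le_right hC1.le)

/-- and for the derivative -/
theorem HS_growth' (κ : ℝ) (hκ : 0 < κ) (hκ1 : κ ≤ 1 / 2) : ∃ C : ℝ, 0 < C ∧ ∀ s : ℂ,
    1 / 2 ≤ s.re → s.re ≤ 1 - κ →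
    ‖riemannZeta s‖ ≤ C * (1 + |s.im|) ∧ ‖deriv riemannZeta s‖ ≤ C * (1 + |s.im|) := by
  obtain ⟨C, hC, h⟩ := HS_growth (κ / 2) (by linarith)
  refine ⟨max C (4 * C / κ), lt_max_of_lt_left hC, fun s h1 h2 => ⟨?_, ?_⟩⟩
  · refine (h s (by linarith) (by linarith)).trans ?_
    apply mul_le_mul_of_nonneg_right (le_max_left _ _)
    positivity
  · have hr : 0 < κ / 2 := by linarith
    have hball : ∀ z ∈ closedBall s (κ / 2), 1 / 4 ≤ z.re ∧ z.re ≤ 1 - κ / 2 ∧
        |z.im| ≤ |s.im| + κ / 2 := by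
      intro z hz
      rw [mem_closedBall, dist_eq_norm] at hz
      have h3 := (Complex.abs_re_le_norm (z - s)).trans hz
      have h4 := (Complex.abs_im_le_norm (z - s)).trans hz
      rw [Complex.sub_re, abs_le] at h3
      rw [Complex.sub_im] at h4
      have h5 : |z.im| ≤ |z.im - s.im| + |s.im| := by
        have := abs_add_le (z.im - s.im) s.im
        rwa [sub_add_cancel] at this
      refine ⟨by linarith, by linarith, by linarith⟩
    have hd : DiffContOnCl ℂ riemannZeta (ball s (κ / 2)) := by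
      apply DifferentiableOn.diffContOnCl
      intro z hz
      have hz2 := closure_ball_subset_closedBall hz
      have hz1 : z ≠ 1 := by
        rintro rfl
        have := (hball 1 hz2).2.1
        rw [Complex.one_re] at this
        linarith
      exact (differentiableAt_riemannZeta hz1).differentiableWithinAt
    have h3 := Complex.norm_deriv_le_of_forall_mem_sphere_norm_le hr hd
      (C := C * (2 * (1 + |s.im|))) (by
        intro z hz
        obtain ⟨h4, h5, h6⟩ := hball z (sphere_subset_closedBall hz)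
        refine (h z h4 h5).trans ?_
        apply mul_le_mul_of_nonneg_left _ hC.le
        linarith [abs_nonneg s.im])
    refine h3.trans ?_
    have h4 : C * (2 * (1 + |s.im|)) / (κ / 2) = 4 * C / κ * (1 + |s.im|) := by
      field_simp
      ring
    rw [h4]
    apply mul_le_mul_of_nonneg_right (le_max_right _ _)
    positivity

theorem HS_large (e K : ℝ) (he : 0 < e) : ∃ T0 : ℝ, ∀ T : ℝ, T0 ≤ T → K ≤ T ^ e := by
  have h := (tendsto_rpow_atTop he).eventually_ge_atTop K
  obtain ⟨T0, h0⟩ := Filter.eventually_atTop.1 h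
  exact ⟨T0, h0⟩

theorem HS (hLG : LG_stmt) (hLD : LD_stmt) (hLL : LL_stmt) (hPL : PL_stmt) (hPR : PR_stmt)
    (hPC : PC_stmt) (hLT : LT_stmt) (hGA : GA_stmt) : HS_stmt := by
  intro θ α β η v ε hθ hθ1 hZ hα hαβ hη hW hv hv1 hv2 hv3 hv4 hε
  set e : ℝ := ε / 4 with he
  have he0 : 0 < e := by positivity
  obtain ⟨l1, hl1⟩ := hPL θ α v e hθ.le hθ1 hZ hα hv hv1 he0
  obtain ⟨l2, hl2⟩ := hPR θ α β η v e hθ.le hθ1 hZ hα hαβ hη hW hv hv1 hv4 he0
  set lam : ℝ := max 2 (max l1 l2) with hlam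
  have hlam2 : 2 ≤ lam := le_max_left _ _
  obtain ⟨T1, hT1⟩ := hl1 lam ((le_max_left _ _).trans (le_max_right _ _))
  obtain ⟨T2, hT2⟩ := hl2 lam ((le_max_right _ _).trans (le_max_right _ _))
  obtain ⟨B, hB, hpc⟩ := hPC α lam hα hlam2
  obtain ⟨T3, hT31, hT3⟩ := hLG θ e hθ hθ1 hZ he0
  obtain ⟨T4, hT41, hT4⟩ := hLD θ e hθ hθ1 hZ he0
  obtain ⟨T5, hT51, hT5⟩ := hLL θ v e hθ.le hZ hv he0
  set κ : ℝ := 1 - (θ + v) with hκ
  have hκ0 : 0 < κ := by linarith
  have hκ1 : κ ≤ 1 / 2 := by linarith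
  obtain ⟨C, hC, hCg⟩ := HS_growth' κ hκ0 hκ1
  have hβ : 0 < β := hα.trans hαβ
  set N : ℝ := 2 * (β * v) with hN
  have hN0 : 0 < N := by positivity
  obtain ⟨T6, hT6⟩ := hGA (2 * B + 1) N (2 * C) (by positivity) hN0 (by positivity)
  obtain ⟨T7, hT7⟩ := HS_large e (2 * (2 : ℝ) ^ (v / 2 + e)) he0
  obtain ⟨T8, hT8⟩ := HS_large e ((2 : ℝ) ^ e) he0
  obtain ⟨T9, hT9⟩ := HS_large e (Real.exp 1) he0
  -- a common bound
  obtain ⟨T0, b1, b2, b3, b4, b5, b6, b7, b8, b9, b10⟩ : ∃ T0 : ℝ, T1 ≤ T0 ∧ T2 ≤ T0 ∧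
      2 * T3 + 4 ≤ T0 ∧ 2 * T4 + 4 ≤ T0 ∧ 2 * T5 + 4 ≤ T0 ∧ T6 + 1 ≤ T0 ∧ T7 ≤ T0 ∧ T8 ≤ T0 ∧
      T9 ≤ T0 ∧ 4 ≤ T0 := by
    refine ⟨|T1| + |T2| + (|2 * T3 + 4|) + (|2 * T4 + 4|) + (|2 * T5 + 4|) + |T6 + 1| + |T7| + |T8|
      + |T9| + 4, ?_, ?_, ?_, ?_, ?_, ?_, ?_, ?_, ?_, ?_⟩ <;>
    linarith [le_abs_self T1, le_abs_self T2, le_abs_self (2 * T3 + 4),
      le_abs_self (2 * T4 + 4), le_abs_self (2 * T5 + 4), le_abs_self (T6 + 1), le_abs_self T7,
      le_abs_self T8, le_abs_self T9, abs_nonneg T1, abs_nonneg T2, abs_nonneg (2 * T3 + 4),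
      abs_nonneg (2 * T4 + 4), abs_nonneg (2 * T5 + 4), abs_nonneg (T6 + 1), abs_nonneg T7,
      abs_nonneg T8, abs_nonneg T9]
  refine ⟨lam, T0, hlam2, fun T u t hT hu ht => ?_⟩
  rw [abs_le] at hu ht
  have hTp : 0 < T := by linarith
  have hT1' : 1 ≤ T := by linarith
  have htp : 0 < t := by linarith
  have ht1 : 1 ≤ t := by linarith
  have hTt : T ≤ t ^ (2 : ℝ) := by
    rw [Real.rpow_two]
    nlinarith
  -- crude bound
  have hcr : ∀ s : ℂ, θ - v ≤ s.re → s.re ≤ θ + v →
      ‖hh lam α T s‖ ≤ 2 * C * T ^ B * (1 + |s.im|) := by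
    intro s h1 h2
    obtain ⟨h3, h4⟩ := hCg s (by linarith) (by linarith)
    have h5 := (hpc T s (by linarith) (by linarith)).2
    have h6 : (1 : ℝ) ≤ T ^ B := Real.one_le_rpow hT1' hB.le
    have h7 : 0 ≤ 1 + |s.im| := by positivity
    have h8 : 0 ≤ C * (1 + |s.im|) := by positivity
    calc ‖hh lam α T s‖ = ‖deriv riemannZeta s - Pt lam α T s * riemannZeta s‖ := rfl
      _ ≤ ‖deriv riemannZeta s‖ + ‖Pt lam α T s‖ * ‖riemannZeta s‖ := by
        rw [← norm_mul]
        exact norm_sub_le _ _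
      _ ≤ C * (1 + |s.im|) + T ^ B * (C * (1 + |s.im|)) := by
        apply add_le_add h4
        exact mul_le_mul h5 h3 (norm_nonneg _) (by linarith)
      _ ≤ T ^ B * (C * (1 + |s.im|)) + T ^ B * (C * (1 + |s.im|)) := by
        apply add_le_add_left
        exact le_mul_of_one_le_left h8 h6
      _ = 2 * C * T ^ B * (1 + |s.im|) := by ring
  -- away from `t`
  have hfar : ∀ s : ℂ, θ - v ≤ s.re → s.re ≤ θ + v → t / 4 ≤ |s.im - t| →
      ‖hh lam α T s‖ ≤ T ^ (-(β * v)) * Real.exp ((s.im - t) ^ 2) := by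
    intro s h1 h2 h3
    have h4 := hT6 t s.im (by linarith) h3
    have h5 : T ^ B ≤ t ^ (2 * B + 1) := by
      calc T ^ B ≤ (t ^ (2 : ℝ)) ^ B := Real.rpow_le_rpow hTp.le hTt hB.le
        _ = t ^ (2 * B) := by rw [← Real.rpow_mul htp.le]
        _ ≤ t ^ (2 * B + 1) := Real.rpow_le_rpow_of_exponent_le ht1 (by linarith)
    have h6 : 1 + |s.im| ≤ (1 + |s.im|) ^ (2 * B + 1) := by
      have h7 : (1 : ℝ) ≤ 1 + |s.im| := by linarith [abs_nonneg s.im]
      calc 1 + |s.im| = (1 + |s.im|) ^ (1 : ℝ) := (Real.rpow_one _).symm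
        _ ≤ (1 + |s.im|) ^ (2 * B + 1) := Real.rpow_le_rpow_of_exponent_le h7 (by linarith)
    have h7 : t ^ (-N) ≤ T ^ (-(β * v)) := by
      rw [Real.rpow_neg htp.le, Real.rpow_neg hTp.le]
      apply inv_anti₀ (Real.rpow_pos_of_pos hTp _)
      calc T ^ (β * v) ≤ (t ^ (2 : ℝ)) ^ (β * v) :=
            Real.rpow_le_rpow hTp.le hTt (by positivity)
        _ = t ^ N := by rw [← Real.rpow_mul htp.le]
    calc ‖hh lam α T s‖ ≤ 2 * C * T ^ B * (1 + |s.im|) := hcr s h1 h2
      _ ≤ 2 * C * t ^ (2 * B + 1) * (1 + |s.im|) ^ (2 * B + 1) := by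
        apply mul_le_mul _ h6 (by positivity) (by positivity)
        exact mul_le_mul_of_nonneg_left h5 (by positivity)
      _ ≤ t ^ (-N) * Real.exp ((s.im - t) ^ 2) := h4
      _ ≤ T ^ (-(β * v)) * Real.exp ((s.im - t) ^ 2) :=
        mul_le_mul_of_nonneg_right h7 (Real.exp_pos _).le
  have hexp1 : ∀ y : ℝ, 1 ≤ Real.exp ((y - t) ^ 2) := fun y => Real.one_le_exp (by positivity)
  have hstep : θ - v < θ + v := by linarith
  have hmain := hLT (hh lam α T) (θ - v) (θ + v) (T ^ ((1 / 2 + α) * v + 3 * e))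
    (T ^ (-(β * v) + 3 * e)) t (θ + u) hstep (Real.rpow_pos_of_pos hTp _)
    (Real.rpow_pos_of_pos hTp _) ?_ ?_ ?_ ?_ (by linarith) (by linarith)
  · refine hmain.trans ?_
    rw [← Real.rpow_mul hTp.le, ← Real.rpow_mul hTp.le, mul_assoc, ← Real.rpow_add hTp]
    have h1 : Real.exp ((θ + v - (θ - v)) ^ 2) ≤ T ^ e := by
      refine le_trans ?_ (hT9 T (by linarith))
      apply Real.exp_le_exp.2
      nlinarith
    have h2 : ((1 / 2 + α) * v + 3 * e) * ((θ + v - (θ + u)) / (θ + v - (θ - v))) +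
        (-(β * v) + 3 * e) * ((θ + u - (θ - v)) / (θ + v - (θ - v))) =
        ((1 / 2 + α) * (v - u) - β * (v + u)) / 2 + 3 * e := by
      have h3 : θ + v - (θ - v) = 2 * v := by ring
      rw [h3]
      field_simp
      ring
    rw [h2]
    calc Real.exp ((θ + v - (θ - v)) ^ 2) *
          T ^ (((1 / 2 + α) * (v - u) - β * (v + u)) / 2 + 3 * e)
        ≤ T ^ e * T ^ (((1 / 2 + α) * (v - u) - β * (v + u)) / 2 + 3 * e) :=
          mul_le_mul_of_nonneg_right h1 (Real.rpow_nonneg hTp.le _)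
      _ = T ^ (((1 / 2 + α) * (v - u) - β * (v + u)) / 2 + ε) := by
        rw [← Real.rpow_add hTp]
        congr 1
        rw [he]
        ring
  · intro s h1 h2
    have hs1 : s ≠ 1 := by
      rintro rfl
      rw [Complex.one_re] at h2
      linarith
    have hd : DifferentiableOn ℂ riemannZeta {(1 : ℂ)}ᶜ := fun w hw =>
      (differentiableAt_riemannZeta hw).differentiableWithinAt
    have han : AnalyticAt ℂ riemannZeta s := hd.analyticAt (isOpen_compl_singleton.mem_nhds hs1)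
    exact han.deriv.differentiableAt.sub
      ((hpc T s (by linarith) (by linarith)).1.mul han.differentiableAt)
  · refine ⟨2 * C * T ^ B, 1, fun s h1 h2 => ?_⟩
    rw [pow_one]
    exact hcr s h1 h2
  · intro y
    rcases le_or_gt (t / 4) |y - t| with h3 | h3
    · have h4 := hfar (((θ - v : ℝ) : ℂ) + y * I) (by simp) (by simp; linarith)
        (by simpa using h3)
      have h5 : (((θ - v : ℝ) : ℂ) + y * I).im = y := by simp
      rw [h5] at h4
      push_cast at h4 ⊢
      refine h4.trans (mul_le_mul_of_nonneg_right ?_ (Real.exp_pos _).le)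
      apply Real.rpow_le_rpow_of_exponent_le hT1'
      have : 0 ≤ β * v := by positivity
      have h6 : 0 ≤ (1 / 2 + α) * v := by positivity
      linarith
    · rw [abs_lt] at h3
      have y1 : T / 2 ≤ y := by linarith
      have y2 : y ≤ 2 * T := by linarith
      have yp : 0 < y := by linarith
      have g1 := hT3 (θ - v) y (by linarith) (by linarith)
      have g2 := hT4 (θ - v) y (by linarith) (by linarith)
      have g3 := hT1 T y (by linarith) y1 y2
      have hmx : max (θ - (θ - v)) 0 / 2 + e = v / 2 + e := by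
        rw [show θ - (θ - v) = v by ring, max_eq_left hv.le]
      rw [hmx] at g1 g2
      have hyT : y ^ (v / 2 + e) ≤ 2 ^ (v / 2 + e) * T ^ (v / 2 + e) := by
        rw [← Real.mul_rpow (by norm_num) hTp.le]
        exact Real.rpow_le_rpow yp.le y2 (by positivity)
      have h7 : ‖hh lam α T (((θ - v : ℝ) : ℂ) + y * I)‖ ≤
          T ^ ((1 / 2 + α) * v + 3 * e) := by
        have h8 : (1 : ℝ) ≤ T ^ (α * v + e) := Real.one_le_rpow hT1' (by positivity)
        have h9 : 0 ≤ y ^ (v / 2 + e) := by positivity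
        calc ‖hh lam α T (((θ - v : ℝ) : ℂ) + y * I)‖
            ≤ ‖deriv riemannZeta (((θ - v : ℝ) : ℂ) + y * I)‖ +
              ‖Pt lam α T (((θ - v : ℝ) : ℂ) + y * I)‖ *
              ‖riemannZeta (((θ - v : ℝ) : ℂ) + y * I)‖ := by
              rw [← norm_mul]
              exact norm_sub_le _ _
          _ ≤ y ^ (v / 2 + e) + T ^ (α * v + e) * y ^ (v / 2 + e) :=
              add_le_add g2 (mul_le_mul g3 g1 (norm_nonneg _) (by positivity))
          _ ≤ T ^ (α * v + e) * y ^ (v / 2 + e) + T ^ (α * v + e) * y ^ (v / 2 + e) :=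
              add_le_add_left (le_mul_of_one_le_left h9 h8) _
          _ = 2 * (T ^ (α * v + e) * y ^ (v / 2 + e)) := by ring
          _ ≤ 2 * (T ^ (α * v + e) * (2 ^ (v / 2 + e) * T ^ (v / 2 + e))) := by
              apply mul_le_mul_of_nonneg_left _ (by norm_num)
              exact mul_le_mul_of_nonneg_left hyT (by positivity)
          _ = 2 * 2 ^ (v / 2 + e) * (T ^ (α * v + e) * T ^ (v / 2 + e)) := by ring
          _ ≤ T ^ e * (T ^ (α * v + e) * T ^ (v / 2 + e)) :=
              mul_le_mul_of_nonneg_right (hT7 T (by linarith)) (by positivity)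
          _ = T ^ ((1 / 2 + α) * v + 3 * e) := by
              rw [← Real.rpow_add hTp, ← Real.rpow_add hTp]
              congr 1
              ring
      push_cast at h7 ⊢
      exact h7.trans (le_mul_of_one_le_right (Real.rpow_nonneg hTp.le _) (hexp1 y))
  · intro y
    rcases le_or_gt (t / 4) |y - t| with h3 | h3
    · have h4 := hfar (((θ + v : ℝ) : ℂ) + y * I) (by simp; linarith) (by simp)
        (by simpa using h3)
      have h5 : (((θ + v : ℝ) : ℂ) + y * I).im = y := by simp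
      rw [h5] at h4
      push_cast at h4 ⊢
      refine h4.trans (mul_le_mul_of_nonneg_right ?_ (Real.exp_pos _).le)
      apply Real.rpow_le_rpow_of_exponent_le hT1'
      linarith
    · rw [abs_lt] at h3
      have y1 : T / 2 ≤ y := by linarith
      have y2 : y ≤ 2 * T := by linarith
      have yp : 0 < y := by linarith
      have g1 := hT5 (θ + v) y le_rfl (by linarith)
      have g3 := hT2 T y (by linarith) y1 y2
      have hz0 : riemannZeta (((θ + v : ℝ) : ℂ) + y * I) ≠ 0 := by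
        intro h
        have h4 := g1.1
        rw [h, norm_zero] at h4
        exact absurd h4 (not_le.2 (Real.rpow_pos_of_pos yp _))
      have hyT : y ^ e ≤ 2 ^ e * T ^ e := by
        rw [← Real.mul_rpow (by norm_num) hTp.le]
        exact Real.rpow_le_rpow yp.le y2 he0.le
      have h7 : ‖hh lam α T (((θ + v : ℝ) : ℂ) + y * I)‖ ≤ T ^ (-(β * v) + 3 * e) := by
        have h8 : hh lam α T (((θ + v : ℝ) : ℂ) + y * I) =
            riemannZeta (((θ + v : ℝ) : ℂ) + y * I) *
            (logDeriv riemannZeta (((θ + v : ℝ) : ℂ) + y * I) -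
              Pt lam α T (((θ + v : ℝ) : ℂ) + y * I)) := by
          unfold hh
          rw [mul_sub, logDeriv_apply, mul_div_cancel₀ _ hz0]
          ring
        rw [h8, norm_mul]
        calc ‖riemannZeta (((θ + v : ℝ) : ℂ) + y * I)‖ *
              ‖logDeriv riemannZeta (((θ + v : ℝ) : ℂ) + y * I) -
              Pt lam α T (((θ + v : ℝ) : ℂ) + y * I)‖
            ≤ y ^ e * T ^ (-(β * v) + e) :=
              mul_le_mul g1.2 g3 (norm_nonneg _) (Real.rpow_nonneg yp.le _)
          _ ≤ (2 ^ e * T ^ e) * T ^ (-(β * v) + e) :=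
              mul_le_mul_of_nonneg_right hyT (Real.rpow_nonneg hTp.le _)
          _ = 2 ^ e * (T ^ e * T ^ (-(β * v) + e)) := by ring
          _ ≤ T ^ e * (T ^ e * T ^ (-(β * v) + e)) :=
              mul_le_mul_of_nonneg_right (hT8 T (by linarith)) (by positivity)
          _ = T ^ (-(β * v) + 3 * e) := by
              rw [← Real.rpow_add hTp, ← Real.rpow_add hTp]
              congr 1
              ring
      push_cast at h7 ⊢
      exact h7.trans (le_mul_of_one_le_right (Real.rpow_nonneg hTp.le _) (hexp1 y))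

end Pool.Agent.QZ
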